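import Pool.Agent.Helper5.SX.St

set_option autoImplicit false

namespace Pool.Agent.Helper83.SX

open _root_.SX
open Finset
open scoped Classical

theorem hCLC : StCYC → StFCD → StRPC → StCZ → StROT → StUNF → StCLA → StCLC := by
  intro hCYC hFCD hRPC hCZ hROT hUNF hCLA V _ A c y l t0 t1 C L hF B hB z hz htight
  have hmin := hF.st
  have hmax := hmin.mx
  have hst := hmax.st
  have hl := (hCZ V A c y l hmax).1
  have hcomp := hF.comp B hB
  have hfree := hF.free B hB
  have hBS : B ∈ Sb A c y l ∧ 1 + kap A y l B + (Xb A c y l t0 B).card ≤ t1 := by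
    simpa [Gd] using hB
  have hzC : z ∈ C B := hfree.sub hz
  have hRp : ∀ x ∈ Rp A c y l t0 B, (A.b x = B ∧ x ∉ Mk A c ∧ x ∉ Cen y l) ∧ exc A c y l x ≤ t0 := by
    intro x hx
    simpa [Rp, Rb] using hx
  have hRpRb : ∀ x ∈ Rp A c y l t0 B, x ∈ Rb A c y l B := by
    intro x hx
    exact (mem_filter.1 hx).1
  have hzR := hcomp.sub hzC
  have hinj : ∀ x ∈ Rp A c y l t0 B, ∀ x' ∈ Rp A c y l t0 B, c x = c x' → x = x' := by
    intro x hx x' hx' hc
    exact hst.base.lab.inj x x' ((hRp x hx).1.1.trans (hRp x' hx').1.1.symm) hc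
  -- the set P
  set P := (Rp A c y l t0 B).filter (fun x' => c x' ∉ Fb A c y l z) with hP
  have hPC : ∀ x' ∈ P, x' ∈ C B := by
    intro x' hx'
    rw [hP, mem_filter] at hx'
    exact hcomp.closed z hzC x' hx'.1 hx'.2
  have hPcard : A.D < P.card := by
    have h1 := hRPC V A c y l t0 hst hl B hBS.1
    have h2 := hFCD V A c y l z hst
    have h3 := (hRp z hzR).2
    have h4 : ((Rp A c y l t0 B).filter (fun x' => ¬ (c x' ∉ Fb A c y l z))).card ≤ (Fb A c y l z).card := by
      apply card_le_card_of_injOn c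
      · intro x hx
        rw [mem_coe, mem_filter, not_not] at hx
        exact hx.2
      · intro x hx x' hx' hc
        rw [mem_coe, mem_filter] at hx hx'
        exact hinj x hx.1 x' hx'.1 hc
    have h5 := card_filter_add_card_filter_not (s := Rp A c y l t0 B) (fun x' => c x' ∉ Fb A c y l z)
    rw [← hP] at h5
    have h6 := hF.big
    omega
  by_cases hcase : ∃ x' ∈ P, ¬ TightAt A c y l z (c x')
  · obtain ⟨x', hx'P, hx't⟩ := hcase
    have hx'C := hPC x' hx'P
    have hfr : Free A c y l z x' := by
      rw [hP, mem_filter] at hx'P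
      exact ⟨hx'P.2, hx't⟩
    have hx'L : x' ∈ L B := hfree.closed z hz x' hx'C hfr
    have hne : z ≠ x' := by
      rintro rfl
      exact hx't htight
    obtain ⟨π, hπz, hπ⟩ := hCYC V (Free A c y l) (L B) z x' hz hx'L hne hfr (hfree.conn x' hx'L z hz)
    have hLRb : ∀ v ∈ L B, v ∈ Rb A c y l B := fun v hv => hRpRb v (hcomp.sub (hfree.sub hv))
    obtain ⟨hM', hMk, hK, hS⟩ := hROT V A c y l π B hmax (fun v hv =>
      ⟨hLRb v (hπ v hv).1, hLRb _ (hπ v hv).2.1, (hπ v hv).2.2.1⟩)
    have hKn : ∀ x, Kn A (fun v => c (π v)) y l x = Kn A c y l x := by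
      intro x
      simp only [Kn, hK]
    have hUnd : ∀ b', Und A (fun v => c (π v)) y l b' = Und A c y l b' := by
      intro b'
      simp only [Und, hK]
    have hfix : ∀ b', ∀ v ∈ Und A c y l b', π v = v := by
      intro b' v hv
      by_contra hmv
      have hvC := hfree.sub (hπ v hmv).1
      obtain ⟨w, hw⟩ := hCLA V A c y l t0 t1 C L hF B hB v hvC
      simp only [Kn, mem_filter] at hw
      simp only [Und, mem_filter] at hv
      exact hv.2.2 w hw.1 hw.2
    have hT : ∀ x a, TightAt A (fun v => c (π v)) y l x a ↔ TightAt A c y l x a := by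
      intro x a
      unfold TightAt
      rw [hKn, hMk]
      simp only [hUnd]
      constructor
      · rintro ⟨h1, h2⟩
        refine ⟨h1, fun m hm => ⟨(h2 m hm).1, ?_⟩⟩
        obtain ⟨v, hv, hcv⟩ := (h2 m hm).2
        rw [hfix _ v hv] at hcv
        exact ⟨v, hv, hcv⟩
      · rintro ⟨h1, h2⟩
        refine ⟨h1, fun m hm => ⟨(h2 m hm).1, ?_⟩⟩
        obtain ⟨v, hv, hcv⟩ := (h2 m hm).2
        refine ⟨v, hv, ?_⟩
        rw [hfix _ v hv]
        exact hcv
    have hlow := hmin.low (fun v => c (π v)) hM'
    have hlt : (Tg A (fun v => c (π v)) y l).card < (Tg A c y l).card := by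
      apply card_lt_card
      rw [ssubset_iff_of_subset]
      · refine ⟨z, ?_, ?_⟩
        · simp only [Tg, mem_filter, mem_univ, true_and]
          exact htight
        · simp only [Tg, mem_filter, mem_univ, true_and, hT]
          rw [hπz]
          exact hx't
      · intro x hx
        simp only [Tg, mem_filter, mem_univ, true_and, hT] at hx ⊢
        by_cases hmv : π x = x
        · rwa [hmv] at hx
        · exact absurd hx (hπ x hmv).2.2.2
    omega
  · push Not at hcase
    obtain ⟨m, hm⟩ := htight.1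
    have hmM := (htight.2 m hm).1
    have hmK : m ∈ KM A c y l := by
      simp only [KM, mem_filter]
      simp only [Kn, mem_filter] at hm
      exact ⟨hm.2, hmM⟩
    obtain ⟨-, hU1, hU2⟩ := hUNF V A c y l hmax m hmK
    have hch : ∀ x' ∈ P, ∃ v ∈ Und A c y l (A.b m), c v = c x' := fun x' hx' => ((hcase x' hx').2 m hm).2
    have hle : P.card ≤ (Und A c y l (A.b m)).card := by
      have h1 : P.card = (P.image c).card := by
        rw [card_image_of_injOn]
        intro x hx x' hx' hc
        rw [mem_coe, hP, mem_filter] at hx hx'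
        exact hinj x hx.1 x' hx'.1 hc
      have h2 : P.image c ⊆ (Und A c y l (A.b m)).image c := by
        intro a ha
        rw [mem_image] at ha ⊢
        obtain ⟨x, hx, rfl⟩ := ha
        exact hch x hx
      rw [h1]
      exact (card_le_card h2).trans card_image_le
    omega

end Pool.Agent.Helper83.SX
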