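import Pool.Agent.Helper5.SX.St

set_option autoImplicit false

namespace Pool.Agent.Helper83.SX

open _root_.SX
open Finset
open scoped Classical

theorem hROT : StBFA → StROT := by
  intro hB V _ A c y l π B hM hπ
  have hst := hM.st
  obtain ⟨-, -, -, b4, -, -, -⟩ := hB V A c y l hst
  have hu : A.u ∈ Mk A c := by simp [Mk]
  have halM : ∀ v, c v = A.al → v ∈ Mk A c := by
    intro v hv
    simp [Mk, hv]
  have hmv : ∀ v, π v ≠ v → A.b v = B ∧ v ∉ Mk A c ∧ v ∉ Cen y l := by
    intro v hv
    have := (hπ v hv).1
    simpa [Rb] using this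
  have hmv' : ∀ v, π v ≠ v → A.b (π v) = B ∧ π v ∉ Mk A c ∧ π v ∉ Cen y l := by
    intro v hv
    have := (hπ v hv).2.1
    simpa [Rb] using this
  have hal : ∀ v, c (π v) = A.al ↔ c v = A.al := by
    intro v
    by_cases hv : π v = v
    · rw [hv]
    · constructor
      · intro h
        exact absurd (halM _ h) (hmv' v hv).2.1
      · intro h
        exact absurd (halM _ h) (hmv v hv).2.1
  have hMk : Mk A (fun v => c (π v)) = Mk A c := by
    ext v
    simp only [Mk, mem_filter, mem_univ, true_and, hal]
  have hLf : ∀ v, Lf A (fun v => c (π v)) v = Lf A c v := by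
    intro v
    ext z
    simp only [Lf, mem_filter, hal]
  have hK : ∀ i, Kset A (fun v => c (π v)) y i = Kset A c y i := by
    intro i
    simp only [Kset, hLf]
  have hS : ∀ i, Sb A (fun v => c (π v)) y i = Sb A c y i := by
    intro i
    simp only [Sb, hLf]
  have hpb : ∀ v, A.b (π v) = A.b v := by
    intro v
    by_cases hv : π v = v
    · rw [hv]
    · rw [(hmv v hv).1, (hmv' v hv).1]
  have hpu : π A.u = A.u := by
    by_contra hv
    exact (hmv _ hv).2.1 hu
  have hpy : ∀ i, 1 ≤ i → i < l → π (y i) = y i := by
    intro i h1 h2
    by_contra hv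
    apply (hmv _ hv).2.2
    simp only [Cen, mem_image, mem_Ico]
    exact ⟨i, ⟨h1, h2⟩, rfl⟩
  have hFb : ∀ v w, π v ≠ v → w ∈ A.N v → c w = c (π v) → A.k ≤ c (π v) := by
    intro v w hv hw hc
    by_contra hlt
    apply (hπ v hv).2.2
    simp only [Fb, mem_filter, mem_range]
    refine ⟨by omega, ?_, Or.inl ⟨w, hw, hc⟩⟩
    intro h
    exact (hmv' v hv).2.1 (halM _ h)
  have hlab : Lab A.toSys (fun v => c (π v)) := by
    constructor
    · intro v w hb hc
      have hc' : c (π v) = c (π w) := hc
      have := hst.base.lab.inj (π v) (π w) (by rw [hpb, hpb]; exact hb) hc'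
      exact π.injective this
    · intro v w hw hc
      have hc' : c (π w) = c (π v) := hc
      show A.k ≤ c (π v)
      have hout := A.out v w hw
      by_cases hv : π v = v
      · by_cases hw' : π w = w
        · rw [hv]
          rw [hv, hw'] at hc'
          exact hst.base.lab.prop v w hw hc'
        · rw [← hc']
          apply hFb w v hw' (A.symm v w hw)
          rw [hc', hv]
      · by_cases hw' : π w = w
        · apply hFb v w hv hw
          rw [← hc', hw']
        · exact absurd ((hmv w hw').1.trans (hmv v hv).1.symm) hout
  have hcnt : cnt A.toSys (fun v => c (π v)) = cnt A.toSys c := by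
    simp only [cnt, card_filter]
    exact Equiv.sum_comp π (fun v => if c v < A.k then 1 else 0)
  have hbase : Base A (fun v => c (π v)) := by
    refine ⟨hlab, ?_, hst.base.lt, ?_, ?_⟩
    · show A.k ≤ c (π A.u)
      rw [hpu]
      exact hst.base.blank
    · intro v hv h
      exact hst.base.miss v hv ((hal v).1 h)
    · intro c' hc'
      rw [hcnt]
      exact hst.base.max c' hc'
  have hstate : St A (fun v => c (π v)) y l := by
    refine ⟨hbase, hst.zero, ?_, ?_, ?_, ?_⟩
    · intro i hi
      rw [hS]
      exact hst.inS i hi
    · intro i hi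
      rcases Nat.eq_zero_or_pos i with h0 | h0
      · left
        rw [h0]
        exact hst.zero
      · right
        have hn := b4 i hi h0
        have hne : y i ≠ A.u := fun h => hn (h ▸ hu)
        have hav := hst.av i hi
        rcases hav with h | ⟨h1, h2⟩
        · exact absurd h hne
        · have hp := hpy i h0 hi
          refine ⟨?_, ?_⟩
          · show c (π (y i)) ≠ A.al
            rw [hp]
            exact h1
          · intro m hm hbm z hz hcz
            rw [hMk] at hm
            have hcz' : c (π z) = c (π (y i)) := hcz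
            show A.k ≤ c (π (y i))
            rw [hp] at hcz' ⊢
            by_cases hzz : π z = z
            · rw [hzz] at hcz'
              exact h2 m hm hbm z hz hcz'
            · by_contra hlt
              apply (hπ z hzz).2.2
              simp only [Fb, mem_filter, mem_range]
              refine ⟨by omega, ?_, Or.inr ⟨m, A.symm m z hz, hm, i, h0, hi, hbm.symm, hcz'.symm⟩⟩
              intro h
              exact (hmv' z hzz).2.1 (halM _ h)
    · intro i hi z hz
      rw [hK]
      exact hst.und i hi z hz
    · intro i hi
      rw [hLf]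
      exact hst.lf i hi
  refine ⟨⟨hstate, ?_⟩, hMk, hK, hS⟩
  intro c' y' l' h'
  have hval : val A (fun v => c (π v)) y l = val A c y l := by
    simp only [_root_.SX.val, hLf]
  rw [hval]
  exact hM.top c' y' l' h'

end Pool.Agent.Helper83.SX
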